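import Mathlib
set_option autoImplicit false
open Filter Topology
namespace Pool.Agent.Matsaev

/-- the window combination `w_j = (m+1) g_{j+1} + √2 (m²-1) g_j - (m-1) g_{j-1}` -/
noncomputable def W (m x y z : ℝ) : ℝ := (m + 1) * x + √2 * (m ^ 2 - 1) * y - (m - 1) * z

/-- the potential -/
noncomputable def Gp (m p x y : ℝ) : ℝ :=
  2 * m * (m + 1) * |x + (m - 1) / √2 * y| ^ p - m * (m - 1) * (m ^ 2 + 1) * |y| ^ p

/-- the constant `M^p e^{c(2-p)/2}`, `M² = 2m²(m²+1)` -/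
noncomputable def K (m c p : ℝ) : ℝ := (2 * m ^ 2 * (m ^ 2 + 1)) ^ (p / 2) * Real.exp (c * (2 - p) / 2)

/-- the window functional -/
noncomputable def F (m c p : ℝ) (g : Fin 6 → ℝ) : ℝ :=
  (K m c p * |g 1| ^ p - |W m (g 2) (g 1) (g 0)| ^ p) +
  (K m c p * |g 2| ^ p - |W m (g 3) (g 2) (g 1)| ^ p) +
  (K m c p * |g 3| ^ p - |W m (g 4) (g 3) (g 2)| ^ p) +
  (K m c p * |g 4| ^ p - |W m (g 5) (g 4) (g 3)| ^ p) +
  (Gp m p (g 5) (g 4) - Gp m p (g 1) (g 0))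

end Pool.Agent.Matsaev
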