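import Mathlib
set_option autoImplicit false
open Real
namespace Pool.Agent.Matsaev

/-- `E(s) = ∑_{j<4} -cos²(s+jπ/4) log cos²(s+jπ/4)`. -/
noncomputable def E (s : ℝ) : ℝ := ∑ j ∈ Finset.range 4, Real.negMulLog (Real.cos (s + j * (π / 4)) ^ 2)

theorem aux_log : Real.log (10 / 3) ≤ 1.206 := by
  rw [Real.log_le_iff_le_exp (by norm_num)]
  have h1 : (1.206 : ℝ) = 1 + 0.206 := by norm_num
  rw [h1, Real.exp_add]
  have h2 := Real.exp_one_gt_d9
  have h3 := Real.quadratic_le_exp_of_nonneg (show (0:ℝ) ≤ 0.206 by norm_num)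
  have h4 : (2.7182818283 : ℝ) * (1 + 0.206 + 0.206 ^ 2 / 2) ≤ Real.exp 1 * Real.exp 0.206 :=
    mul_le_mul h2.le h3 (by norm_num) (Real.exp_pos _).le
  norm_num at h4 ⊢
  linarith

theorem aux_bd (a c : ℝ) (ha : 0 < a) (hac : a ≤ c) (h1 : a ^ 2 + c ^ 2 = 1) :
    0 ≤ 4 * a * c * (Real.log c - Real.log a) ∧
      4 * a * c * (Real.log c - Real.log a) ≤ 1.34 := by
  have hc : 0 < c := lt_of_lt_of_le ha hac
  have hlog : Real.log a ≤ Real.log c := Real.log_le_log ha hac
  constructor
  · have : 0 ≤ Real.log c - Real.log a := by linarith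
    positivity
  · have e1 : Real.log c - Real.log a = Real.log (10 / 3) + Real.log (3 * c / (10 * a)) := by
      have f1 : Real.log (10 / 3) = Real.log 10 - Real.log 3 :=
        Real.log_div (by norm_num) (by norm_num)
      have f2 : Real.log (3 * c / (10 * a)) = Real.log (3 * c) - Real.log (10 * a) :=
        Real.log_div (by positivity) (by positivity)
      have f3 : Real.log (3 * c) = Real.log 3 + Real.log c := Real.log_mul (by norm_num) hc.ne'
      have f4 : Real.log (10 * a) = Real.log 10 + Real.log a := Real.log_mul (by norm_num) ha.ne'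
      linarith
    have e2 : Real.log (3 * c / (10 * a)) ≤ 3 * c / (10 * a) - 1 :=
      Real.log_le_sub_one_of_pos (by positivity)
    have e3 := aux_log
    have e4 : 4 * a * c * (Real.log c - Real.log a)
        ≤ 4 * a * c * (1.206 + (3 * c / (10 * a) - 1)) := by
      apply mul_le_mul_of_nonneg_left _ (by positivity)
      linarith
    have e5 : 4 * a * c * (1.206 + (3 * c / (10 * a) - 1)) = 0.824 * (a * c) + 1.2 * c ^ 2 := by
      field_simp; ring
    rw [e5] at e4
    nlinarith [sq_nonneg (a - 0.31 * c), sq_nonneg (a - 0.32 * c)]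

theorem E_eq (s : ℝ) : E s = Real.negMulLog (Real.cos s ^ 2) + Real.negMulLog (Real.sin s ^ 2)
    + (Real.negMulLog (Real.cos (s + π / 4) ^ 2) + Real.negMulLog (Real.sin (s + π / 4) ^ 2)) := by
  have h2 : Real.cos (s + 2 * (π / 4)) = - Real.sin s := by
    rw [show s + 2 * (π / 4) = s + π / 2 by ring, Real.cos_add_pi_div_two]
  have h3 : Real.cos (s + 3 * (π / 4)) = - Real.sin (s + π / 4) := by
    rw [show s + 3 * (π / 4) = (s + π / 4) + π / 2 by ring, Real.cos_add_pi_div_two]
  unfold E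
  simp only [Finset.sum_range_succ, Finset.sum_range_zero, Nat.cast_zero, Nat.cast_one,
    Nat.cast_ofNat, zero_mul, one_mul, add_zero, zero_add, h2, h3, neg_sq]
  ring

theorem E_per : Function.Periodic E (π / 4) := by
  intro s
  have h1 : Real.cos (s + π / 4 + π / 4) = - Real.sin s := by
    rw [show s + π / 4 + π / 4 = s + π / 2 by ring, Real.cos_add_pi_div_two]
  have h2 : Real.sin (s + π / 4 + π / 4) = Real.cos s := by
    rw [show s + π / 4 + π / 4 = s + π / 2 by ring, Real.sin_add_pi_div_two]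
  rw [E_eq, E_eq s, h1, h2, neg_sq]
  ring

theorem E_cont : Continuous E := by
  unfold E
  refine continuous_finsetSum _ fun j _ => ?_
  exact Real.continuous_negMulLog.comp (by fun_prop)

theorem aux_deriv (s : ℝ) (hs : Real.sin s ≠ 0) (hc : Real.cos s ≠ 0) :
    HasDerivAt (fun s => Real.negMulLog (Real.cos s ^ 2) + Real.negMulLog (Real.sin s ^ 2))
      (4 * Real.sin s * Real.cos s * (Real.log (Real.cos s) - Real.log (Real.sin s))) s := by
  have h1 : HasDerivAt (fun s => Real.cos s ^ 2) (2 * Real.cos s * (- Real.sin s)) s := by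
    have := (Real.hasDerivAt_cos s).fun_pow 2
    simpa using this
  have h2 : HasDerivAt (fun s => Real.sin s ^ 2) (2 * Real.sin s * Real.cos s) s := by
    have := (Real.hasDerivAt_sin s).fun_pow 2
    simpa using this
  have h3 := (Real.hasDerivAt_negMulLog (x := Real.cos s ^ 2) (pow_ne_zero 2 hc)).comp s h1
  have h4 := (Real.hasDerivAt_negMulLog (x := Real.sin s ^ 2) (pow_ne_zero 2 hs)).comp s h2
  have h5 := h3.add h4
  have h6 : (-Real.log (Real.cos s ^ 2) - 1) * (2 * Real.cos s * (- Real.sin s))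
      + (-Real.log (Real.sin s ^ 2) - 1) * (2 * Real.sin s * Real.cos s)
      = 4 * Real.sin s * Real.cos s * (Real.log (Real.cos s) - Real.log (Real.sin s)) := by
    rw [Real.log_pow, Real.log_pow]; push_cast; ring
  rw [h6] at h5
  exact h5

theorem E_deriv (s : ℝ) (h0 : 0 < s) (h1 : s < π / 4) : ∃ d, HasDerivAt E d s ∧ |d| ≤ 1.34 := by
  have hpi := Real.pi_pos
  have hsin : 0 < Real.sin s := Real.sin_pos_of_pos_of_lt_pi h0 (by linarith)
  have hcos : 0 < Real.cos s := Real.cos_pos_of_mem_Ioo ⟨by linarith, by linarith⟩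
  have hsin2 : 0 < Real.sin (s + π / 4) := Real.sin_pos_of_pos_of_lt_pi (by linarith) (by linarith)
  have hcos2 : 0 < Real.cos (s + π / 4) := Real.cos_pos_of_mem_Ioo ⟨by linarith, by linarith⟩
  have hle1 : Real.sin s ≤ Real.cos s := by
    have e1 : Real.sin s ≤ Real.sin (π / 4) :=
      Real.sin_le_sin_of_le_of_le_pi_div_two (by linarith) (by linarith) h1.le
    have e2 : Real.cos (π / 4) ≤ Real.cos s :=
      Real.cos_le_cos_of_nonneg_of_le_pi h0.le (by linarith) h1.le
    rw [Real.sin_pi_div_four] at e1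
    rw [Real.cos_pi_div_four] at e2
    linarith
  have hle2 : Real.cos (s + π / 4) ≤ Real.sin (s + π / 4) := by
    have e1 : Real.sin (π / 4) ≤ Real.sin (s + π / 4) :=
      Real.sin_le_sin_of_le_of_le_pi_div_two (by linarith) (by linarith) (by linarith)
    have e2 : Real.cos (s + π / 4) ≤ Real.cos (π / 4) :=
      Real.cos_le_cos_of_nonneg_of_le_pi (by linarith) (by linarith) (by linarith)
    rw [Real.sin_pi_div_four] at e1
    rw [Real.cos_pi_div_four] at e2
    linarith
  have hd1 := aux_deriv s hsin.ne' hcos.ne'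
  have hd2 := (aux_deriv (s + π / 4) hsin2.ne' hcos2.ne').comp_add_const s (π / 4)
  have hd := hd1.add hd2
  have hEeq : E = fun s => (Real.negMulLog (Real.cos s ^ 2) + Real.negMulLog (Real.sin s ^ 2))
    + (Real.negMulLog (Real.cos (s + π / 4) ^ 2) + Real.negMulLog (Real.sin (s + π / 4) ^ 2)) := by
    funext s; exact E_eq s
  obtain ⟨b1, b2⟩ := aux_bd (Real.sin s) (Real.cos s) hsin hle1 (Real.sin_sq_add_cos_sq s)
  obtain ⟨b3, b4⟩ := aux_bd (Real.cos (s + π / 4)) (Real.sin (s + π / 4)) hcos2 hle2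
    (Real.cos_sq_add_sin_sq (s + π / 4))
  refine ⟨_, by rw [hEeq]; exact hd, ?_⟩
  rw [abs_le]
  constructor <;> nlinarith

theorem E_lip0 (s t : ℝ) (h0 : 0 ≤ s) (hst : s ≤ t) (ht : t ≤ π / 4) :
    |E t - E s| ≤ 1.34 * (t - s) := by
  rcases hst.eq_or_lt with h | h
  · rw [h]; simp
  · have hdiff : DifferentiableOn ℝ E (Set.Ioo s t) := by
      intro x hx
      obtain ⟨d, hd, _⟩ := E_deriv x (lt_of_le_of_lt h0 hx.1) (lt_of_lt_of_le hx.2 ht)
      exact hd.differentiableAt.differentiableWithinAt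
    obtain ⟨c, hc, hc2⟩ := exists_deriv_eq_slope E h E_cont.continuousOn hdiff
    obtain ⟨d, hd, hd2⟩ := E_deriv c (lt_of_le_of_lt h0 hc.1) (lt_of_lt_of_le hc.2 ht)
    rw [hd.deriv] at hc2
    have hpos : 0 < t - s := by linarith
    have e1 : E t - E s = d * (t - s) := by
      rw [hc2]; field_simp
    rw [e1, abs_mul, abs_of_pos hpos]
    exact mul_le_mul_of_nonneg_right hd2 hpos.le

theorem E_lip1 (s t : ℝ) (hst : s ≤ t) : |E t - E s| ≤ 1.34 * (t - s) := by
  have hpi := Real.pi_pos
  have hp : 0 < π / 4 := by positivity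
  set k := ⌊s / (π / 4)⌋ with hk
  set l := ⌊t / (π / 4)⌋ with hl
  have hk1 : (k : ℝ) * (π / 4) ≤ s := by
    have := Int.floor_le (s / (π / 4)); rwa [le_div_iff₀ hp] at this
  have hk2 : s < ((k : ℝ) + 1) * (π / 4) := by
    have := Int.lt_floor_add_one (s / (π / 4)); rwa [div_lt_iff₀ hp] at this
  have hl1 : (l : ℝ) * (π / 4) ≤ t := by
    have := Int.floor_le (t / (π / 4)); rwa [le_div_iff₀ hp] at this
  have hl2 : t < ((l : ℝ) + 1) * (π / 4) := by
    have := Int.lt_floor_add_one (t / (π / 4)); rwa [div_lt_iff₀ hp] at this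
  have hkl : k ≤ l := Int.floor_le_floor (by gcongr)
  have hEs : E s = E (s - k * (π / 4)) := by
    have := E_per.sub_zsmul_eq (x := s) k
    rw [zsmul_eq_mul] at this
    exact this.symm
  have hEt : E t = E (t - l * (π / 4)) := by
    have := E_per.sub_zsmul_eq (x := t) l
    rw [zsmul_eq_mul] at this
    exact this.symm
  rcases hkl.eq_or_lt with h | h
  · rw [hEs, hEt]
    rw [← h] at hl1 hl2 ⊢
    have := E_lip0 (s - k * (π / 4)) (t - k * (π / 4)) (by linarith) (by linarith) (by linarith)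
    refine this.trans (le_of_eq (by ring))
  · have hEp : E (π / 4) = E 0 := by
      have := E_per 0
      rwa [zero_add] at this
    have h1 := E_lip0 0 (t - l * (π / 4)) le_rfl (by linarith) (by linarith)
    have h2 := E_lip0 (s - k * (π / 4)) (π / 4) (by linarith) (by linarith) le_rfl
    have hkl' : (k : ℝ) + 1 ≤ l := by exact_mod_cast h
    rw [hEs, hEt]
    have h3 : E (t - l * (π / 4)) - E (s - k * (π / 4))
        = (E (t - l * (π / 4)) - E 0) + (E (π / 4) - E (s - k * (π / 4))) := by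
      rw [hEp]; ring
    rw [h3]
    refine (abs_add_le _ _).trans ?_
    have h4 : ((k : ℝ) + 1) * (π / 4) ≤ l * (π / 4) := mul_le_mul_of_nonneg_right hkl' hp.le
    nlinarith

theorem E_lipschitz (s t : ℝ) : |E t - E s| ≤ 1.34 * |t - s| := by
  rcases le_total s t with h | h
  · rw [abs_of_nonneg (sub_nonneg.mpr h)]
    exact E_lip1 s t h
  · rw [abs_sub_comm, abs_sub_comm t s, abs_of_nonneg (sub_nonneg.mpr h)]
    exact E_lip1 t s h

end Pool.Agent.Matsaev
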