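import Pool.Agent.Matsaev.Defs
set_option autoImplicit false
open Filter Topology Real
namespace Pool.Agent.Matsaev

/-- `E(s) = ∑_{j<4} -cos²(s+jπ/4) log cos²(s+jπ/4)`. -/
noncomputable def E' (s : ℝ) : ℝ := ∑ j ∈ Finset.range 4, Real.negMulLog (Real.cos (s + j * (π / 4)) ^ 2)

theorem sqrt2_sq_aux : √2 * √2 = (2 : ℝ) := Real.mul_self_sqrt (by norm_num)

theorem cos_add_pi4_aux (x : ℝ) : Real.cos (x + π / 4) = √2 / 2 * (Real.cos x - Real.sin x) := by
  rw [Real.cos_add, Real.cos_pi_div_four, Real.sin_pi_div_four]; ring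

theorem sin_add_pi4_aux (x : ℝ) : Real.sin (x + π / 4) = √2 / 2 * (Real.sin x + Real.cos x) := by
  rw [Real.sin_add, Real.cos_pi_div_four, Real.sin_pi_div_four]; ring

theorem rec_aux (x : ℝ) : Real.cos (x + π / 4 + π / 4) = √2 * Real.cos (x + π / 4) - Real.cos x := by
  rw [cos_add_pi4_aux (x + π / 4), cos_add_pi4_aux, sin_add_pi4_aux]
  have := sqrt2_sq_aux
  linear_combination (-Real.sin x / 2 + (-Real.cos x / 2 + Real.sin x / 2)) * this

theorem Wcos_aux (m r x : ℝ) : W m (r * Real.cos (x + π / 4 + π / 4)) (r * Real.cos (x + π / 4))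
    (r * Real.cos x) = √2 * m ^ 2 * (r * Real.cos (x + π / 4)) -
      √2 * m * (r * Real.sin (x + π / 4)) := by
  rw [rec_aux, W, cos_add_pi4_aux, sin_add_pi4_aux]
  have := sqrt2_sq_aux
  linear_combination (m * r * Real.cos x) * this

theorem Weta_aux (m r x : ℝ) (hm : 1 < m) :
    W m (r * Real.cos (x + π / 4 + π / 4)) (r * Real.cos (x + π / 4)) (r * Real.cos x) =
    (√(2 * m ^ 2 * (m ^ 2 + 1)) * r) * Real.cos (x + π / 4 + Real.arctan (1 / m)) := by
  rw [Wcos_aux, Real.cos_add (x + π / 4) (Real.arctan (1 / m)), Real.cos_arctan, Real.sin_arctan]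
  have hm0 : 0 < m := by linarith
  have hD : 0 < √(1 + (1 / m) ^ 2) := Real.sqrt_pos.2 (by positivity)
  have hQ : √(2 * m ^ 2 * (m ^ 2 + 1)) = √2 * m ^ 2 * √(1 + (1 / m) ^ 2) := by
    have h1 : 2 * m ^ 2 * (m ^ 2 + 1) = 2 * ((m ^ 2) ^ 2 * (1 + (1 / m) ^ 2)) := by
      field_simp
    rw [h1, Real.sqrt_mul (by norm_num), Real.sqrt_mul (by positivity),
      Real.sqrt_sq (by positivity)]
    ring
  rw [hQ]
  field_simp

theorem logcos_aux (r x : ℝ) (hr : 0 < r) : (r * Real.cos x) ^ 2 * Real.log |r * Real.cos x| =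
    r ^ 2 * Real.cos x ^ 2 * Real.log r - r ^ 2 / 2 * Real.negMulLog (Real.cos x ^ 2) := by
  rw [Real.log_abs]
  by_cases h : Real.cos x = 0
  · rw [h]; simp
  · rw [Real.log_mul hr.ne' h, Real.negMulLog, Real.log_pow]
    push_cast
    ring

theorem sumcos_aux (x : ℝ) : Real.cos (x + π / 4) ^ 2 + Real.cos (x + π / 4 + π / 4) ^ 2 +
    Real.cos (x + π / 4 + π / 4 + π / 4) ^ 2 + Real.cos (x + π / 4 + π / 4 + π / 4 + π / 4) ^ 2
    = 2 := by
  have h1 : Real.cos (x + π / 4 + π / 4 + π / 4) ^ 2 = Real.sin (x + π / 4) ^ 2 := by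
    rw [show x + π / 4 + π / 4 + π / 4 = x + π / 4 + π / 2 by ring, Real.cos_add_pi_div_two]; ring
  have h2 : Real.cos (x + π / 4 + π / 4 + π / 4 + π / 4) ^ 2 = Real.sin (x + π / 4 + π / 4) ^ 2 := by
    rw [show x + π / 4 + π / 4 + π / 4 + π / 4 = x + π / 4 + π / 4 + π / 2 by ring,
      Real.cos_add_pi_div_two]; ring
  rw [h1, h2]
  linarith [Real.sin_sq_add_cos_sq (x + π / 4), Real.sin_sq_add_cos_sq (x + π / 4 + π / 4)]

theorem sumE_aux (x : ℝ) : Real.negMulLog (Real.cos (x + π / 4) ^ 2) +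
    Real.negMulLog (Real.cos (x + π / 4 + π / 4) ^ 2) +
    Real.negMulLog (Real.cos (x + π / 4 + π / 4 + π / 4) ^ 2) +
    Real.negMulLog (Real.cos (x + π / 4 + π / 4 + π / 4 + π / 4) ^ 2) = E' x := by
  have h2 : Real.cos (x + π / 4 + π / 4 + π / 4 + π / 4) ^ 2 = Real.cos x ^ 2 := by
    rw [show x + π / 4 + π / 4 + π / 4 + π / 4 = x + π by ring, Real.cos_add_pi]; ring
  rw [h2, E', Finset.sum_range_succ, Finset.sum_range_succ, Finset.sum_range_succ,
    Finset.sum_range_succ, Finset.sum_range_zero]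
  have e0 : x + ((0 : ℕ) : ℝ) * (π / 4) = x := by push_cast; ring
  have e1 : x + ((1 : ℕ) : ℝ) * (π / 4) = x + π / 4 := by push_cast; ring
  have e2 : x + ((2 : ℕ) : ℝ) * (π / 4) = x + π / 4 + π / 4 := by push_cast; ring
  have e3 : x + ((3 : ℕ) : ℝ) * (π / 4) = x + π / 4 + π / 4 + π / 4 := by push_cast; ring
  rw [e0, e1, e2, e3]
  ring

theorem null_ineq (hE : ∀ s t : ℝ, |E' t - E' s| ≤ 1.34 * |t - s|)
    (m c : ℝ) (hm : 1 < m) (hc : 0.67 / m < c) (g : Fin 6 → ℝ) (hg : g ≠ 0)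
    (h1 : g 2 - √2 * g 1 + g 0 = 0) (h2 : g 3 - √2 * g 2 + g 1 = 0)
    (h3 : g 4 - √2 * g 3 + g 2 = 0) (h4 : g 5 - √2 * g 4 + g 3 = 0) :
    let Q : ℝ := 2 * m ^ 2 * (m ^ 2 + 1)
    let L : ℝ := Q * (Real.log Q / 2 - c / 2)
    (L * g 1 ^ 2 + Q * (g 1 ^ 2 * Real.log |g 1|)
        - W m (g 2) (g 1) (g 0) ^ 2 * Real.log |W m (g 2) (g 1) (g 0)|) +
    (L * g 2 ^ 2 + Q * (g 2 ^ 2 * Real.log |g 2|)
        - W m (g 3) (g 2) (g 1) ^ 2 * Real.log |W m (g 3) (g 2) (g 1)|) +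
    (L * g 3 ^ 2 + Q * (g 3 ^ 2 * Real.log |g 3|)
        - W m (g 4) (g 3) (g 2) ^ 2 * Real.log |W m (g 4) (g 3) (g 2)|) +
    (L * g 4 ^ 2 + Q * (g 4 ^ 2 * Real.log |g 4|)
        - W m (g 5) (g 4) (g 3) ^ 2 * Real.log |W m (g 5) (g 4) (g 3)|) < 0 := by
  intro Q L
  have hs2 := sqrt2_sq_aux
  obtain ⟨r, s, hr, hg0, hg1⟩ : ∃ r s : ℝ, 0 < r ∧ g 0 = r * Real.cos s ∧
      g 1 = r * Real.cos (s + π / 4) := by
    let ζ : ℂ := ⟨g 0, g 0 - √2 * g 1⟩
    have hζ : ζ ≠ 0 := by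
      intro h0
      have hre : g 0 = 0 := congrArg Complex.re h0
      have him : g 0 - √2 * g 1 = 0 := congrArg Complex.im h0
      have hg1 : g 1 = 0 := by
        have : √2 * g 1 = 0 := by linarith
        rcases mul_eq_zero.1 this with h | h
        · exact absurd h (Real.sqrt_pos.2 (by norm_num)).ne'
        · exact h
      have hg2 : g 2 = 0 := by rw [hre, hg1] at h1; linarith
      have hg3 : g 3 = 0 := by rw [hg1, hg2] at h2; linarith
      have hg4 : g 4 = 0 := by rw [hg2, hg3] at h3; linarith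
      have hg5 : g 5 = 0 := by rw [hg3, hg4] at h4; linarith
      apply hg
      ext i
      fin_cases i
      · exact hre
      · exact hg1
      · exact hg2
      · exact hg3
      · exact hg4
      · exact hg5
    refine ⟨‖ζ‖, Complex.arg ζ, norm_pos_iff.2 hζ, ?_, ?_⟩
    · rw [Complex.norm_mul_cos_arg]
    · rw [cos_add_pi4_aux]
      have e1 : ‖ζ‖ * Real.cos (Complex.arg ζ) = g 0 := Complex.norm_mul_cos_arg ζ
      have e2 : ‖ζ‖ * Real.sin (Complex.arg ζ) = g 0 - √2 * g 1 := Complex.norm_mul_sin_arg ζ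
      have e3 : ‖ζ‖ * (√2 / 2 * (Real.cos (Complex.arg ζ) - Real.sin (Complex.arg ζ))) =
        √2 / 2 * (‖ζ‖ * Real.cos (Complex.arg ζ) - ‖ζ‖ * Real.sin (Complex.arg ζ)) := by ring
      rw [e3, e1, e2]
      linear_combination (-g 1 / 2) * hs2
  have hg2 : g 2 = r * Real.cos (s + π / 4 + π / 4) := by
    rw [rec_aux]; rw [hg0, hg1] at h1; linarith
  have hg3 : g 3 = r * Real.cos (s + π / 4 + π / 4 + π / 4) := by
    rw [rec_aux]; rw [hg1, hg2] at h2; linarith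
  have hg4 : g 4 = r * Real.cos (s + π / 4 + π / 4 + π / 4 + π / 4) := by
    rw [rec_aux]; rw [hg2, hg3] at h3; linarith
  have hg5 : g 5 = r * Real.cos (s + π / 4 + π / 4 + π / 4 + π / 4 + π / 4) := by
    rw [rec_aux]; rw [hg3, hg4] at h4; linarith
  have hm0 : 0 < m := by linarith
  have hQ0 : 0 < Q := by show 0 < 2 * m ^ 2 * (m ^ 2 + 1); positivity
  set η := Real.arctan (1 / m) with hη
  have hη0 : 0 ≤ η := Real.arctan_nonneg.2 (by positivity)
  have hη1 : η ≤ 1 / m := by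
    have h := Real.le_tan hη0 (Real.arctan_lt_pi_div_two (1 / m))
    rwa [hη, Real.tan_arctan, ← hη] at h
  have hMr : 0 < √Q * r := mul_pos (Real.sqrt_pos.2 hQ0) hr
  have hW1 : W m (g 2) (g 1) (g 0) = (√Q * r) * Real.cos (s + π / 4 + η) := by
    rw [hg2, hg1, hg0, Weta_aux m r s hm]
  have hW2 : W m (g 3) (g 2) (g 1) = (√Q * r) * Real.cos (s + π / 4 + π / 4 + η) := by
    rw [hg3, hg2, hg1, Weta_aux m r (s + π / 4) hm]
  have hW3 : W m (g 4) (g 3) (g 2) = (√Q * r) * Real.cos (s + π / 4 + π / 4 + π / 4 + η) := by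
    rw [hg4, hg3, hg2, Weta_aux m r (s + π / 4 + π / 4) hm]
  have hW4 : W m (g 5) (g 4) (g 3) =
      (√Q * r) * Real.cos (s + π / 4 + π / 4 + π / 4 + π / 4 + η) := by
    rw [hg5, hg4, hg3, Weta_aux m r (s + π / 4 + π / 4 + π / 4) hm]
  rw [hW1, hW2, hW3, hW4, logcos_aux _ _ hMr, logcos_aux _ _ hMr, logcos_aux _ _ hMr,
    logcos_aux _ _ hMr, hg1, hg2, hg3, hg4, logcos_aux _ _ hr, logcos_aux _ _ hr,
    logcos_aux _ _ hr, logcos_aux _ _ hr]
  have hsum1 := sumcos_aux s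
  have hE1 := sumE_aux s
  have hsum2 := sumcos_aux (s + η)
  have hE2 := sumE_aux (s + η)
  rw [show s + η + π / 4 + π / 4 + π / 4 + π / 4 = s + π / 4 + π / 4 + π / 4 + π / 4 + η by ring,
    show s + η + π / 4 + π / 4 + π / 4 = s + π / 4 + π / 4 + π / 4 + η by ring,
    show s + η + π / 4 + π / 4 = s + π / 4 + π / 4 + η by ring,
    show s + η + π / 4 = s + π / 4 + η by ring] at hsum2 hE2
  have hlog : Real.log (√Q * r) = Real.log Q / 2 + Real.log r := by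
    rw [Real.log_mul (Real.sqrt_pos.2 hQ0).ne' hr.ne', Real.log_sqrt hQ0.le]
  have hsq : (√Q * r) ^ 2 = Q * r ^ 2 := by
    rw [mul_pow, Real.sq_sqrt hQ0.le]
  rw [hlog, hsq]
  have hLdef : L = Q * (Real.log Q / 2 - c / 2) := rfl
  have hEb := hE s (s + η)
  rw [show s + η - s = η by ring, abs_of_nonneg hη0] at hEb
  have hEb2 : E' (s + η) - E' s ≤ 1.34 * η := (le_abs_self _).trans hEb
  have htot : (E' (s + η) - E' s) / 2 - c < 0 := by
    have h5 : 0.67 * η ≤ 0.67 / m := by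
      rw [div_eq_mul_one_div]
      exact mul_le_mul_of_nonneg_left hη1 (by norm_num)
    nlinarith
  have hfin : Q * r ^ 2 * ((E' (s + η) - E' s) / 2 - c) < 0 :=
    mul_neg_of_pos_of_neg (by positivity) htot
  rw [hLdef]
  generalize Real.cos (s + π / 4) = a1 at *
  generalize Real.cos (s + π / 4 + π / 4) = a2 at *
  generalize Real.cos (s + π / 4 + π / 4 + π / 4) = a3 at *
  generalize Real.cos (s + π / 4 + π / 4 + π / 4 + π / 4) = a4 at *
  generalize Real.cos (s + π / 4 + η) = b1 at *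
  generalize Real.cos (s + π / 4 + π / 4 + η) = b2 at *
  generalize Real.cos (s + π / 4 + π / 4 + π / 4 + η) = b3 at *
  generalize Real.cos (s + π / 4 + π / 4 + π / 4 + π / 4 + η) = b4 at *
  rw [← hE1, ← hE2] at hfin
  refine lt_of_eq_of_lt ?_ hfin
  linear_combination (Q * (Real.log Q / 2 - c / 2) * r ^ 2 + Q * r ^ 2 * Real.log r) * hsum1
    - (Q * r ^ 2 * (Real.log Q / 2 + Real.log r)) * hsum2

end Pool.Agent.Matsaev
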