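import Mathlib
set_option autoImplicit false
open Filter Topology
namespace Pool.Agent.Matsaev

theorem pw_cont {n : ℕ} (l : (Fin n → ℝ) →ₗ[ℝ] ℝ) (u : Fin n → ℝ) :
    ContinuousAt (fun z : ℝ × (Fin n → ℝ) => |l z.2| ^ z.1) (2, u) := by
  have hl : Continuous l := LinearMap.continuous_of_finiteDimensional l
  have h1 : ContinuousAt (fun z : ℝ × (Fin n → ℝ) => ((|l z.2|, z.1) : ℝ × ℝ)) (2, u) := by
    apply Continuous.continuousAt
    exact ((hl.comp continuous_snd).abs).prodMk continuous_fst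
  have h2 : ContinuousAt (fun q : ℝ × ℝ => q.1 ^ q.2) (|l u|, 2) :=
    Real.continuousAt_rpow_of_pos (|l u|, 2) (by norm_num)
  exact ContinuousAt.comp (g := fun q : ℝ × ℝ => q.1 ^ q.2)
    (f := fun z : ℝ × (Fin n → ℝ) => ((|l z.2|, z.1) : ℝ × ℝ)) h2 h1

theorem pwlog_eq (y p : ℝ) (hp : 0 < p) :
    |y| ^ p * Real.log |y| = (1 / p) * (|y| ^ p * Real.log (|y| ^ p)) := by
  by_cases hy : y = 0
  · subst hy
    simp [Real.zero_rpow hp.ne']
  · have : 0 < |y| := abs_pos.mpr hy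
    rw [Real.log_rpow this]
    field_simp

theorem pwlog_cont {n : ℕ} (l : (Fin n → ℝ) →ₗ[ℝ] ℝ) (u : Fin n → ℝ) :
    ContinuousAt (fun z : ℝ × (Fin n → ℝ) => |l z.2| ^ z.1 * Real.log |l z.2|) (2, u) := by
  have h1 := pw_cont l u
  have h2 : ContinuousAt (fun z : ℝ × (Fin n → ℝ) =>
      (1 / z.1) * (|l z.2| ^ z.1 * Real.log (|l z.2| ^ z.1))) (2, u) := by
    apply ContinuousAt.mul
    · apply ContinuousAt.div continuousAt_const continuousAt_fst
      norm_num
    · exact ContinuousAt.comp (g := fun v : ℝ => v * Real.log v)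
        (f := fun z : ℝ × (Fin n → ℝ) => |l z.2| ^ z.1) Real.continuous_mul_log.continuousAt h1
  refine h2.congr ?_
  have h3 : ∀ᶠ z : ℝ × (Fin n → ℝ) in 𝓝 ((2 : ℝ), u), 0 < z.1 :=
    continuousAt_fst.eventually (lt_mem_nhds (by norm_num : (0 : ℝ) < 2))
  filter_upwards [h3] with z hz
  exact (pwlog_eq _ _ hz).symm

theorem pw_deriv (y p : ℝ) (hp : 0 < p) :
    HasDerivAt (fun q : ℝ => |y| ^ q) (|y| ^ p * Real.log |y|) p := by
  by_cases hy : y = 0
  · subst hy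
    have h1 : (fun q : ℝ => |(0:ℝ)| ^ q) =ᶠ[𝓝 p] fun _ => 0 := by
      filter_upwards [lt_mem_nhds hp] with q hq
      simp [Real.zero_rpow hq.ne']
    have h2 : |(0:ℝ)| ^ p * Real.log |(0:ℝ)| = 0 := by simp
    rw [h2]
    exact (hasDerivAt_const p (0:ℝ)).congr_of_eventuallyEq h1
  · have : 0 < |y| := abs_pos.mpr hy
    exact (Real.hasStrictDerivAt_const_rpow this p).hasDerivAt

/-- First order perturbation lemma. `F(p,g) = ∑ i, s i p * |ℓ i g|^p` is nonnegative at `p = 2`, and at every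
nonzero zero `g` of `F(2,·)` its `p`-derivative at `p = 2` is negative. Then `F(p,·) ≥ 0` for `p < 2` near `2`. -/
theorem perturb {n k : ℕ} (l : Fin k → (Fin n → ℝ) →ₗ[ℝ] ℝ) (s s' : Fin k → ℝ → ℝ)
    (hs : ∀ i, ∀ᶠ p in 𝓝 (2:ℝ), HasDerivAt (s i) (s' i p) p)
    (hs' : ∀ i, ContinuousAt (s' i) 2)
    (h0 : ∀ g, 0 ≤ ∑ i, s i 2 * |l i g| ^ (2:ℝ))
    (h1 : ∀ g, g ≠ 0 → ∑ i, s i 2 * |l i g| ^ (2:ℝ) = 0 →
      ∑ i, (s' i 2 * |l i g| ^ (2:ℝ) + s i 2 * (|l i g| ^ (2:ℝ) * Real.log |l i g|)) < 0) :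
    ∀ᶠ p in 𝓝[<] (2:ℝ), ∀ g : Fin n → ℝ, 0 ≤ ∑ i, s i p * |l i g| ^ p := by
  have hsc : ∀ i, ContinuousAt (s i) 2 := fun i => ((hs i).self_of_nhds).continuousAt
  have hfst : ∀ (u : Fin n → ℝ) (f : ℝ → ℝ), ContinuousAt f 2 →
      ContinuousAt (fun z : ℝ × (Fin n → ℝ) => f z.1) (2, u) := by
    intro u f hf
    exact ContinuousAt.comp (g := f) (f := fun z : ℝ × (Fin n → ℝ) => z.1)
      (x := ((2 : ℝ), u)) hf continuousAt_fst
  have key : ∀ u ∈ Metric.sphere (0 : Fin n → ℝ) 1, ∀ᶠ z : ℝ × (Fin n → ℝ) in 𝓝 ((2 : ℝ), u),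
      z.1 < 2 → 0 ≤ ∑ i, s i z.1 * |l i z.2| ^ z.1 := by
    intro u hu
    have hu0 : u ≠ 0 := by
      rintro rfl
      simp at hu
    have hFc : ContinuousAt (fun z : ℝ × (Fin n → ℝ) => ∑ i, s i z.1 * |l i z.2| ^ z.1)
        ((2 : ℝ), u) := by
      apply tendsto_finsetSum
      intro i _
      exact (hfst u (s i) (hsc i)).mul (pw_cont (l i) u)
    rcases (h0 u).lt_or_eq with hpos | hzero
    · have h3 : ∀ᶠ z : ℝ × (Fin n → ℝ) in 𝓝 ((2 : ℝ), u),
          0 < ∑ i, s i z.1 * |l i z.2| ^ z.1 := hFc.eventually (lt_mem_nhds hpos)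
      filter_upwards [h3] with z hz _
      exact hz.le
    · have hD := h1 u hu0 hzero.symm
      have hDc : ContinuousAt (fun z : ℝ × (Fin n → ℝ) =>
          ∑ i, (s' i z.1 * |l i z.2| ^ z.1 + s i z.1 * (|l i z.2| ^ z.1 * Real.log |l i z.2|)))
          ((2 : ℝ), u) := by
        apply tendsto_finsetSum
        intro i _
        exact ((hfst u (s' i) (hs' i)).mul (pw_cont (l i) u)).add
          ((hfst u (s i) (hsc i)).mul (pwlog_cont (l i) u))
      have h3 : ∀ᶠ z : ℝ × (Fin n → ℝ) in 𝓝 ((2 : ℝ), u),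
          ∑ i, (s' i z.1 * |l i z.2| ^ z.1 + s i z.1 * (|l i z.2| ^ z.1 * Real.log |l i z.2|))
            < 0 := hDc.eventually (gt_mem_nhds hD)
      rw [nhds_prod_eq, Filter.eventually_prod_iff] at h3
      obtain ⟨pa, ha, pb, hb, hab⟩ := h3
      have h4 : ∀ᶠ p in 𝓝 (2 : ℝ), pa p ∧ 0 < p ∧ ∀ i, HasDerivAt (s i) (s' i p) p := by
        have h5 : ∀ᶠ p in 𝓝 (2 : ℝ), ∀ i, HasDerivAt (s i) (s' i p) p :=
          Filter.eventually_all.mpr hs
        filter_upwards [ha, lt_mem_nhds (by norm_num : (0 : ℝ) < 2), h5] with p q1 q2 q3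
        exact ⟨q1, q2, q3⟩
      obtain ⟨ε, hε, hball⟩ := Metric.eventually_nhds_iff_ball.mp h4
      rw [nhds_prod_eq, Filter.eventually_prod_iff]
      refine ⟨fun p => p ∈ Metric.ball (2 : ℝ) ε, Metric.ball_mem_nhds _ hε, pb, hb, ?_⟩
      intro p hp g hg hp2
      simp only at hp2 ⊢
      have hder : ∀ q ∈ Set.Icc p 2, HasDerivAt (fun p => ∑ i, s i p * |l i g| ^ p)
          (∑ i, (s' i q * |l i g| ^ q + s i q * (|l i g| ^ q * Real.log |l i g|))) q ∧
          (∑ i, (s' i q * |l i g| ^ q + s i q * (|l i g| ^ q * Real.log |l i g|))) < 0 := by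
        intro q hq
        have hqb : q ∈ Metric.ball (2 : ℝ) ε := by
          rw [Metric.mem_ball, Real.dist_eq] at hp ⊢
          rw [abs_lt] at hp ⊢
          exact ⟨by linarith [hq.1], by linarith [hq.2]⟩
        obtain ⟨q1, q2, q3⟩ := hball q hqb
        refine ⟨?_, hab q1 hg⟩
        apply HasDerivAt.fun_sum
        intro i _
        exact (q3 i).mul (pw_deriv (l i g) q q2)
      have hanti : AntitoneOn (fun p => ∑ i, s i p * |l i g| ^ p) (Set.Icc p 2) := by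
        apply antitoneOn_of_deriv_nonpos (convex_Icc p 2)
        · intro q hq
          exact (hder q hq).1.continuousAt.continuousWithinAt
        · intro q hq
          exact (hder q (interior_subset hq)).1.differentiableAt.differentiableWithinAt
        · intro q hq
          rw [(hder q (interior_subset hq)).1.deriv]
          exact (hder q (interior_subset hq)).2.le
      have h6 := hanti (Set.left_mem_Icc.mpr hp2.le) (Set.right_mem_Icc.mpr hp2.le) hp2.le
      simp only at h6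
      exact (h0 g).trans h6
  have hall := (isCompact_sphere (0 : Fin n → ℝ) 1).eventually_forall_of_forall_eventually
    (P := fun p g => p < 2 → 0 ≤ ∑ i, s i p * |l i g| ^ p) key
  filter_upwards [nhdsWithin_le_nhds hall, self_mem_nhdsWithin,
    nhdsWithin_le_nhds (lt_mem_nhds (by norm_num : (0 : ℝ) < 2))] with p hp hp2 hp0 g
  by_cases hg : g = 0
  · subst hg
    simp [Real.zero_rpow hp0.ne']
  · have hn : 0 < ‖g‖ := norm_pos_iff.mpr hg
    have h7 := hp (‖g‖⁻¹ • g) (by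
      rw [mem_sphere_zero_iff_norm, norm_smul, norm_inv, norm_norm]
      exact inv_mul_cancel₀ hn.ne') hp2
    have h8 : ∑ i, s i p * |l i g| ^ p =
        ‖g‖ ^ p * ∑ i, s i p * |l i (‖g‖⁻¹ • g)| ^ p := by
      rw [Finset.mul_sum]
      apply Finset.sum_congr rfl
      intro i _
      rw [map_smul, smul_eq_mul, abs_mul, abs_of_pos (inv_pos.mpr hn),
        Real.mul_rpow (inv_pos.mpr hn).le (abs_nonneg _), Real.inv_rpow hn.le]
      have : ‖g‖ ^ p ≠ 0 := (Real.rpow_pos_of_pos hn p).ne'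
      field_simp
    rw [h8]
    exact mul_nonneg (Real.rpow_nonneg hn.le p) h7

end Pool.Agent.Matsaev
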