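import Pool.Agent.Matsaev.Defs
set_option autoImplicit false
open Filter Topology Real
namespace Pool.Agent.Matsaev

/-- The right shift on complex sequences: `(S y)(0) = 0`, `(S y)(n+1) = y(n)`. -/
def S : (ℕ → ℂ) →ₗ[ℂ] (ℕ → ℂ) where
  toFun y n := match n with
    | 0 => 0
    | n + 1 => y n
  map_add' y z := by
    ext n
    cases n <;> simp
  map_smul' c y := by
    ext n
    cases n <;> simp

/-- The matrix `T_p = 2^{-1/p} [[1,-1],[1,1]]`. -/
noncomputable def T (p : ℝ) : Matrix (Fin 2) (Fin 2) ℂ :=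
  (((2:ℝ) ^ (-1 / p) : ℝ) : ℂ) • !![(1:ℂ), -1; 1, 1]

/-- The quadratic polynomial `(m+1) + √2 (m²-1) X - (m-1) X²`. -/
noncomputable def P (m : ℝ) : Polynomial ℂ :=
  Polynomial.C ((m:ℂ) + 1) + Polynomial.C ((√2 * (m ^ 2 - 1) : ℝ) : ℂ) * Polynomial.X -
    Polynomial.C ((m:ℂ) - 1) * Polynomial.X ^ 2

lemma aeval_S (m : ℝ) (y : ℕ → ℂ) (n : ℕ) :
    (Polynomial.aeval S (P m)) y n = ((m:ℂ) + 1) * y n + ((√2 * (m ^ 2 - 1) : ℝ) : ℂ) * S y n -
      ((m:ℂ) - 1) * S (S y) n := by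
  simp only [P, map_sub, map_add, map_mul, Polynomial.aeval_C, Polynomial.aeval_X, map_pow,
    LinearMap.sub_apply, LinearMap.add_apply, Pi.sub_apply, Pi.add_apply, Module.End.mul_apply,
    Module.algebraMap_end_apply, Pi.smul_apply, smul_eq_mul, pow_two]
  ring

lemma aeval_T (m p : ℝ) :
    (Polynomial.aeval (T p) (P m)).mulVec ![1, 0] =
      ![(((m + 1) + (m ^ 2 - 1) * (2:ℝ) ^ (1 / 2 - 1 / p) : ℝ) : ℂ),
        (((m ^ 2 - 1) * (2:ℝ) ^ (1 / 2 - 1 / p) - (m - 1) * ((2:ℝ) ^ (1 / 2 - 1 / p)) ^ 2 : ℝ) : ℂ)] := by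
  have h : (2:ℝ) ^ (1 / 2 - 1 / p) = √2 * (2:ℝ) ^ (-1 / p) := by
    rw [Real.sqrt_eq_rpow, ← Real.rpow_add (by norm_num)]
    congr 1
    ring
  have h2 : √2 * √2 = (2:ℝ) := Real.mul_self_sqrt (by norm_num)
  have h2c : ((√2 : ℝ) : ℂ) * ((√2 : ℝ) : ℂ) = 2 := by exact_mod_cast h2
  rw [h]
  simp only [P, T, map_sub, map_add, map_mul, Polynomial.aeval_C, Polynomial.aeval_X, map_pow,
    Algebra.algebraMap_eq_smul_one]
  generalize (2:ℝ) ^ (-1 / p) = a at *
  ext i
  fin_cases i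
  · simp [Matrix.mulVec, pow_two, Matrix.mul_apply, Matrix.one_apply, dotProduct]
    ring
  · simp [Matrix.mulVec, pow_two, Matrix.mul_apply, Matrix.one_apply, dotProduct]
    linear_combination ((m:ℂ) - 1) * a ^ 2 * h2c

/-- the bound for the shift on all of `ℓ^p` from the bound for finitely supported sequences on `ℤ` -/
lemma S_bound (m p C : ℝ) (hp : 0 < p) (hC : 0 ≤ C)
    (h : ∀ f : ℤ → ℂ, (Function.support f).Finite →
      ∑ᶠ n : ℤ, ‖((m:ℂ) + 1) * f (n + 1) + ((√2 * (m ^ 2 - 1) : ℝ) : ℂ) * f n - ((m:ℂ) - 1) * f (n - 1)‖ ^ p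
      ≤ C * ∑ᶠ n : ℤ, ‖f n‖ ^ p) (y : ℕ → ℂ) (hy : Summable fun n => ‖y n‖ ^ p) :
    Summable (fun n => ‖(Polynomial.aeval S (P m)) y n‖ ^ p) ∧
      ∑' n, ‖(Polynomial.aeval S (P m)) y n‖ ^ p ≤ C * ∑' n, ‖y n‖ ^ p := by
  have key : ∀ N : ℕ, ∑ n ∈ Finset.range N, ‖(Polynomial.aeval S (P m)) y n‖ ^ p ≤
      C * ∑' n, ‖y n‖ ^ p := by
    intro N
    let f : ℤ → ℂ := fun n => if 0 ≤ n ∧ n < N then y n.toNat else 0
    have hf : (Function.support f).Finite := by
      apply Set.Finite.subset (Set.finite_Ico (0:ℤ) N)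
      intro n hn
      by_contra hcon
      apply hn
      simp only [f]
      rw [if_neg]
      simpa using hcon
    have hf1 : ∀ n : ℕ, n < N → f n = y n := by
      intro n hn
      simp [f, hn]
    have hf0 : ∀ n : ℤ, n < 0 → f n = 0 := by
      intro n hn
      simp only [f]
      rw [if_neg]
      omega
    have hw : ∀ n : ℕ, n < N → (Polynomial.aeval S (P m)) y n =
        ((m:ℂ) + 1) * f (((n:ℤ) - 1) + 1) + ((√2 * (m ^ 2 - 1) : ℝ) : ℂ) * f ((n:ℤ) - 1) -
          ((m:ℂ) - 1) * f (((n:ℤ) - 1) - 1) := by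
      intro n hn
      rw [aeval_S]
      match n with
      | 0 =>
        have e1 := hf1 0 hn
        have e2 := hf0 (-1) (by norm_num)
        have e3 := hf0 (-2) (by norm_num)
        norm_num at e1 e2 e3 ⊢
        rw [e1, e2, e3]
        simp [S]
      | 1 =>
        have e1 := hf1 1 hn
        have e2 := hf1 0 (by omega)
        have e3 := hf0 (-1) (by norm_num)
        norm_num at e1 e2 e3 ⊢
        rw [e1, e2, e3]
        simp [S]
      | n + 2 =>
        have e1 := hf1 (n + 2) hn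
        have e2 := hf1 (n + 1) (by omega)
        have e3 := hf1 n (by omega)
        have a1 : (((n + 2 : ℕ) : ℤ) - 1) + 1 = ((n + 2 : ℕ) : ℤ) := by ring
        have a2 : (((n + 2 : ℕ) : ℤ) - 1) = ((n + 1 : ℕ) : ℤ) := by push_cast; ring
        have a3 : (((n + 2 : ℕ) : ℤ) - 1) - 1 = ((n : ℕ) : ℤ) := by push_cast; ring
        rw [a1, a3, a2, e1, e2, e3]
        simp [S]
    have hsuppw : (Function.support fun n : ℤ => ‖((m:ℂ) + 1) * f (n + 1) +
        ((√2 * (m ^ 2 - 1) : ℝ) : ℂ) * f n - ((m:ℂ) - 1) * f (n - 1)‖ ^ p).Finite := by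
      apply Set.Finite.subset (Set.finite_Ico (-1:ℤ) (N + 1))
      intro n hn
      by_contra hcon
      apply hn
      have b1 : f (n + 1) = 0 := by
        simp only [f]; rw [if_neg]; intro h'; apply hcon; constructor <;> omega
      have b2 : f n = 0 := by
        simp only [f]; rw [if_neg]; intro h'; apply hcon; constructor <;> omega
      have b3 : f (n - 1) = 0 := by
        simp only [f]; rw [if_neg]; intro h'; apply hcon; constructor <;> omega
      simp only [b1, b2, b3]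
      simp [Real.zero_rpow hp.ne']
    have hsuppf : (Function.support fun n : ℤ => ‖f n‖ ^ p).Finite := by
      apply hf.subset
      intro n hn h0
      apply hn
      simp [h0, Real.zero_rpow hp.ne']
    have hl : ∑ n ∈ Finset.range N, ‖(Polynomial.aeval S (P m)) y n‖ ^ p ≤
        ∑ᶠ n : ℤ, ‖((m:ℂ) + 1) * f (n + 1) + ((√2 * (m ^ 2 - 1) : ℝ) : ℂ) * f n -
          ((m:ℂ) - 1) * f (n - 1)‖ ^ p := by
      let ι : ℕ ↪ ℤ := ⟨fun n => (n:ℤ) - 1, fun a b h => by
        have h' : (a:ℤ) - 1 = (b:ℤ) - 1 := h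
        omega⟩
      have e : ∑ n ∈ Finset.range N, ‖(Polynomial.aeval S (P m)) y n‖ ^ p =
          ∑ n ∈ (Finset.range N).map ι,
            ‖((m:ℂ) + 1) * f (n + 1) + ((√2 * (m ^ 2 - 1) : ℝ) : ℂ) * f n -
          ((m:ℂ) - 1) * f (n - 1)‖ ^ p := by
        rw [Finset.sum_map]
        apply Finset.sum_congr rfl
        intro n hn
        rw [hw n (Finset.mem_range.mp hn)]
        rfl
      have e2 := finsum_eq_sum_of_support_subset (s := hsuppw.toFinset ∪ (Finset.range N).map ι)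
        (fun n : ℤ => ‖((m:ℂ) + 1) * f (n + 1) +
        ((√2 * (m ^ 2 - 1) : ℝ) : ℂ) * f n - ((m:ℂ) - 1) * f (n - 1)‖ ^ p) (by
          intro n hn
          simp only [Finset.coe_union, Set.Finite.coe_toFinset]
          exact Or.inl hn)
      rw [e, e2]
      exact Finset.sum_le_sum_of_subset_of_nonneg Finset.subset_union_right
        (fun _ _ _ => by positivity)
    have hr : ∑ᶠ n : ℤ, ‖f n‖ ^ p ≤ ∑' n, ‖y n‖ ^ p := by
      have e : ∑ᶠ n : ℤ, ‖f n‖ ^ p = ∑ n ∈ (Finset.range N).map Nat.castEmbedding, ‖f n‖ ^ p := by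
        apply finsum_eq_sum_of_support_subset
        intro n hn
        have : 0 ≤ n ∧ n < N := by
          by_contra hcon
          apply hn
          simp only [f]
          rw [if_neg hcon]
          simp [Real.zero_rpow hp.ne']
        simp only [Finset.coe_map, Finset.coe_range, Set.mem_image, Set.mem_Iio]
        refine ⟨n.toNat, by omega, ?_⟩
        show ((n.toNat : ℕ) : ℤ) = n
        omega
      rw [e, Finset.sum_map]
      have e2 : ∑ x ∈ Finset.range N, ‖f (Nat.castEmbedding x)‖ ^ p =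
          ∑ x ∈ Finset.range N, ‖y x‖ ^ p := by
        apply Finset.sum_congr rfl
        intro n hn
        have := hf1 n (Finset.mem_range.mp hn)
        show ‖f ((n:ℕ) : ℤ)‖ ^ p = _
        rw [this]
      rw [e2]
      exact hy.sum_le_tsum _ (fun n _ => by positivity)
    calc _ ≤ _ := hl
      _ ≤ _ := h f hf
      _ ≤ _ := mul_le_mul_of_nonneg_left hr hC
  exact ⟨summable_of_sum_range_le (fun n => by positivity) key,
    Real.tsum_le_of_sum_range_le (fun n => by positivity) key⟩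

end Pool.Agent.Matsaev
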