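import Pool.Agent.Matsaev.Defs
set_option autoImplicit false
open Filter Topology Real
namespace Pool.Agent.Matsaev

theorem sc_circ (p : ℝ) (z : ℂ) :
    ∫ θ in (0 : ℝ)..(2 * π), |(Complex.exp ((θ : ℂ) * Complex.I) * z).re| ^ p
      = ‖z‖ ^ p * ∫ θ in (0 : ℝ)..(2 * π), |Real.cos θ| ^ p := by
  have h1 : ∀ θ : ℝ, |(Complex.exp ((θ : ℂ) * Complex.I) * z).re| ^ p
      = ‖z‖ ^ p * |Real.cos (θ + z.arg)| ^ p := by
    intro θ
    have e : Complex.exp ((θ : ℂ) * Complex.I) * z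
        = ((‖z‖ : ℝ) : ℂ) * Complex.exp (((θ + z.arg : ℝ) : ℂ) * Complex.I) := by
      conv_lhs => rw [← Complex.norm_mul_exp_arg_mul_I z]
      push_cast
      rw [add_mul, Complex.exp_add]
      ring
    rw [e, Complex.re_ofReal_mul, Complex.exp_ofReal_mul_I_re, abs_mul, abs_norm,
      Real.mul_rpow (norm_nonneg _) (abs_nonneg _)]
  simp_rw [h1]
  rw [intervalIntegral.integral_const_mul]
  congr 1
  have hper : Function.Periodic (fun θ : ℝ => |Real.cos θ| ^ p) (2 * π) := by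
    intro θ
    show |Real.cos (θ + 2 * π)| ^ p = |Real.cos θ| ^ p
    rw [Real.cos_add_two_pi]
  have h2 := intervalIntegral.integral_comp_add_right (a := 0) (b := 2 * π)
    (fun θ : ℝ => |Real.cos θ| ^ p) z.arg
  rw [h2]
  have h3 := hper.intervalIntegral_add_eq z.arg 0
  rw [zero_add, add_comm (2 * π) z.arg, h3, zero_add]

theorem sc_pos (p : ℝ) (hp : 0 < p) : 0 < ∫ θ in (0 : ℝ)..(2 * π), |Real.cos θ| ^ p := by
  refine intervalIntegral.integral_pos (by positivity) ?_ ?_ ?_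
  · exact (Real.continuous_cos.abs.rpow_const fun _ => Or.inr hp.le).continuousOn
  · intro x _
    positivity
  · exact ⟨0, ⟨le_rfl, by positivity⟩, by simp⟩

/-- from real sequences to complex sequences, and from `ℤ` to `ℕ`. -/
theorem sum_complex (m p C : ℝ) (hp : 0 < p)
    (hR : ∀ f : ℤ → ℝ, (Function.support f).Finite →
      ∑ᶠ n : ℤ, |W m (f (n + 1)) (f n) (f (n - 1))| ^ p ≤ C * ∑ᶠ n : ℤ, |f n| ^ p)
    (f : ℤ → ℂ) (hf : (Function.support f).Finite) :
    ∑ᶠ n : ℤ, ‖((m:ℂ) + 1) * f (n + 1) + ((√2 * (m ^ 2 - 1) : ℝ) : ℂ) * f n - ((m:ℂ) - 1) * f (n - 1)‖ ^ p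
      ≤ C * ∑ᶠ n : ℤ, ‖f n‖ ^ p := by
  classical
  set w : ℤ → ℂ := fun n => ((m:ℂ) + 1) * f (n + 1) + ((√2 * (m ^ 2 - 1) : ℝ) : ℂ) * f n
    - ((m:ℂ) - 1) * f (n - 1) with hw
  set S : Finset ℤ := hf.toFinset with hS
  set T : Finset ℤ := S ∪ (S.image (fun n => n - 1)) ∪ (S.image (fun n => n + 1)) with hT
  have hfS : ∀ n, n ∉ S → f n = 0 := by
    intro n hn
    by_contra h
    exact hn (by rw [hS, Set.Finite.mem_toFinset]; exact h)
  have hfT : ∀ n, n ∉ T → f n = 0 := by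
    intro n hn
    apply hfS
    intro h
    exact hn (by rw [hT]; simp [h])
  have hwT : ∀ n, n ∉ T → f n = 0 ∧ f (n + 1) = 0 ∧ f (n - 1) = 0 := by
    intro n hn
    refine ⟨hfT n hn, ?_, ?_⟩
    · apply hfS
      intro h
      apply hn
      rw [hT]
      apply Finset.mem_union_left
      apply Finset.mem_union_right
      exact Finset.mem_image.mpr ⟨n + 1, h, by ring⟩
    · apply hfS
      intro h
      apply hn
      rw [hT]
      apply Finset.mem_union_right
      exact Finset.mem_image.mpr ⟨n - 1, h, by ring⟩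
  have hz : (0 : ℝ) ^ p = 0 := Real.zero_rpow hp.ne'
  have hw0 : ∀ n, n ∉ T → w n = 0 := by
    intro n hn
    obtain ⟨h1, h2, h3⟩ := hwT n hn
    simp only [hw, h1, h2, h3]
    ring
  have fs : ∀ g : ℤ → ℝ, (∀ n, n ∉ T → g n = 0) → ∑ᶠ n, g n = ∑ n ∈ T, g n := by
    intro g hg
    refine finsum_eq_sum_of_support_subset _ ?_
    intro n hn
    by_contra h
    exact hn (hg n h)
  have e1 : ∑ᶠ n : ℤ, ‖w n‖ ^ p = ∑ n ∈ T, ‖w n‖ ^ p :=
    fs _ fun n hn => by rw [hw0 n hn, norm_zero, hz]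
  have e2 : ∑ᶠ n : ℤ, ‖f n‖ ^ p = ∑ n ∈ T, ‖f n‖ ^ p :=
    fs _ fun n hn => by rw [hfT n hn, norm_zero, hz]
  show ∑ᶠ n : ℤ, ‖w n‖ ^ p ≤ C * ∑ᶠ n : ℤ, ‖f n‖ ^ p
  rw [e1, e2]
  -- pointwise inequality
  have hpt : ∀ θ : ℝ, ∑ n ∈ T, |(Complex.exp ((θ : ℂ) * Complex.I) * w n).re| ^ p
      ≤ C * ∑ n ∈ T, |(Complex.exp ((θ : ℂ) * Complex.I) * f n).re| ^ p := by
    intro θ
    set g : ℤ → ℝ := fun n => (Complex.exp ((θ : ℂ) * Complex.I) * f n).re with hg
    have hgs : (Function.support g).Finite := by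
      refine hf.subset ?_
      intro n hn h0
      apply hn
      show (Complex.exp ((θ : ℂ) * Complex.I) * f n).re = 0
      rw [h0]
      simp
    have h1 := hR g hgs
    have h2 : ∀ n, W m (g (n + 1)) (g n) (g (n - 1)) = (Complex.exp ((θ : ℂ) * Complex.I) * w n).re := by
      intro n
      have : Complex.exp ((θ : ℂ) * Complex.I) * w n
          = ((m + 1 : ℝ) : ℂ) * (Complex.exp ((θ : ℂ) * Complex.I) * f (n + 1))
            + ((√2 * (m ^ 2 - 1) : ℝ) : ℂ) * (Complex.exp ((θ : ℂ) * Complex.I) * f n)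
            - ((m - 1 : ℝ) : ℂ) * (Complex.exp ((θ : ℂ) * Complex.I) * f (n - 1)) := by
        simp only [hw]
        push_cast
        ring
      rw [this, Complex.sub_re, Complex.add_re, Complex.re_ofReal_mul, Complex.re_ofReal_mul,
        Complex.re_ofReal_mul]
      rfl
    simp_rw [h2] at h1
    rw [fs (fun n => |(Complex.exp ((θ : ℂ) * Complex.I) * w n).re| ^ p)
        (fun n hn => by rw [hw0 n hn]; simp [hz]),
      fs (fun n => |g n| ^ p) (fun n hn => by simp only [hg]; rw [hfT n hn]; simp [hz])] at h1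
    exact h1
  have hcont : ∀ z : ℂ, Continuous fun θ : ℝ => |(Complex.exp ((θ : ℂ) * Complex.I) * z).re| ^ p := by
    intro z
    have hc : Continuous fun θ : ℝ => (Complex.exp ((θ : ℂ) * Complex.I) * z).re := by fun_prop
    exact hc.abs.rpow_const fun _ => Or.inr hp.le
  have hmono := intervalIntegral.integral_mono_on (a := 0) (b := 2 * π) (μ := MeasureTheory.volume)
    (f := fun θ : ℝ => ∑ n ∈ T, |(Complex.exp ((θ : ℂ) * Complex.I) * w n).re| ^ p)
    (g := fun θ : ℝ => C * ∑ n ∈ T, |(Complex.exp ((θ : ℂ) * Complex.I) * f n).re| ^ p)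
    (by positivity)
    ((continuous_finsetSum _ fun n _ => hcont (w n)).intervalIntegrable _ _)
    ((continuous_const.mul (continuous_finsetSum _ fun n _ => hcont (f n))).intervalIntegrable _ _)
    (fun θ _ => hpt θ)
  rw [intervalIntegral.integral_const_mul,
    intervalIntegral.integral_finsetSum (fun n _ => (hcont (w n)).intervalIntegrable _ _),
    intervalIntegral.integral_finsetSum (fun n _ => (hcont (f n)).intervalIntegrable _ _)] at hmono
  simp_rw [sc_circ] at hmono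
  rw [← Finset.sum_mul, ← Finset.sum_mul, ← mul_assoc] at hmono
  exact le_of_mul_le_mul_right hmono (sc_pos p hp)

end Pool.Agent.Matsaev
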