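import Pool.Agent.Matsaev.Defs
set_option autoImplicit false


open Filter Topology Real
namespace Pool.Agent.Matsaev

theorem fin_shift {h : ℤ → ℝ} (hh : (Function.support h).Finite) (k : ℤ) :
    (Function.support fun n => h (n + k)).Finite := by
  have : (Function.support fun n => h (n + k)) = (fun n => n + k) ⁻¹' Function.support h := rfl
  rw [this]
  exact hh.preimage ((add_left_injective k).injOn)

theorem sum_shift (h : ℤ → ℝ) (k : ℤ) : ∑ᶠ n : ℤ, h (n + k) = ∑ᶠ n : ℤ, h n :=
  finsum_comp_equiv (Equiv.addRight k) (f := h)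

/-- summation of the window inequality over all windows of a finitely supported sequence -/
theorem sum_real (m c p : ℝ) (hp : 0 < p) (hF : ∀ g : Fin 6 → ℝ, 0 ≤ F m c p g)
    (f : ℤ → ℝ) (hf : (Function.support f).Finite) :
    ∑ᶠ n : ℤ, |W m (f (n + 1)) (f n) (f (n - 1))| ^ p ≤ K m c p * ∑ᶠ n : ℤ, |f n| ^ p := by
  have hf1 := fin_shift hf 1
  have hfm := fin_shift hf (-1)
  set a : ℤ → ℝ := fun n => |f n| ^ p with ha
  set w : ℤ → ℝ := fun n => |W m (f (n + 1)) (f n) (f (n - 1))| ^ p with hw
  set γ : ℤ → ℝ := fun n => Gp m p (f (n + 1)) (f n) with hγ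
  have h0 : (0 : ℝ) ^ p = 0 := Real.zero_rpow hp.ne'
  have fa : (Function.support a).Finite := by
    refine hf.subset ?_
    intro n hn
    by_contra h
    have : f n = 0 := by simpa using h
    exact hn (by simp [ha, this, h0])
  have fw : (Function.support w).Finite := by
    refine ((hf1.union hf).union hfm).subset ?_
    intro n hn
    by_contra h
    simp only [Set.mem_union, Function.mem_support, not_or, not_not] at h
    have h3 : f (n - 1) = 0 := h.2
    exact hn (by simp [hw, h.1.1, h.1.2, h3, h0, W])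
  have fγ : (Function.support γ).Finite := by
    refine (hf1.union hf).subset ?_
    intro n hn
    by_contra h
    simp only [Set.mem_union, Function.mem_support, not_or, not_not] at h
    exact hn (by simp [hγ, h.1, h.2, h0, Gp])
  set φ : ℤ → ℝ := fun n => K m c p * a n - w n with hφ
  have fKa : (Function.support fun n => K m c p * a n).Finite := by
    refine fa.subset ?_
    intro n hn h
    exact hn (by simp [h])
  have fφ : (Function.support φ).Finite := by
    refine (fKa.union fw).subset ?_
    intro n hn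
    by_contra h
    simp only [Set.mem_union, Function.mem_support, not_or, not_not] at h
    exact hn (by simp only [hφ]; rw [h.1, h.2]; simp)
  have hFn : ∀ n : ℤ, 0 ≤ (φ (n + 1) + φ (n + 2)) + (φ (n + 3) + φ (n + 4)) + (γ (n + 4) - γ n) := by
    intro n
    have h := hF ![f n, f (n + 1), f (n + 2), f (n + 3), f (n + 4), f (n + 5)]
    refine le_of_le_of_eq h ?_
    simp only [F, hφ, hγ, ha, hw]
    have e1 : n + 1 + 1 = n + 2 := by ring
    have e2 : n + 2 + 1 = n + 3 := by ring
    have e3 : n + 3 + 1 = n + 4 := by ring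
    have e4 : n + 4 + 1 = n + 5 := by ring
    have e5 : n + 1 - 1 = n := by ring
    have e6 : n + 2 - 1 = n + 1 := by ring
    have e7 : n + 3 - 1 = n + 2 := by ring
    have e8 : n + 4 - 1 = n + 3 := by ring
    rw [e1, e2, e3, e4, e5, e6, e7, e8]
    simp [Matrix.cons_val]
    ring
  have hsum : 0 ≤ ∑ᶠ n : ℤ, ((φ (n + 1) + φ (n + 2)) + (φ (n + 3) + φ (n + 4)) + (γ (n + 4) - γ n)) :=
    finsum_nonneg hFn
  have f12 : (Function.support fun n => φ (n + 1) + φ (n + 2)).Finite :=
    ((fin_shift fφ 1).union (fin_shift fφ 2)).subset (Function.support_add _ _)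
  have f34 : (Function.support fun n => φ (n + 3) + φ (n + 4)).Finite :=
    ((fin_shift fφ 3).union (fin_shift fφ 4)).subset (Function.support_add _ _)
  have f14 : (Function.support fun n => (φ (n + 1) + φ (n + 2)) + (φ (n + 3) + φ (n + 4))).Finite :=
    (f12.union f34).subset (Function.support_add _ _)
  have fg : (Function.support fun n => γ (n + 4) - γ n).Finite :=
    ((fin_shift fγ 4).union fγ).subset (Function.support_sub _ _)
  rw [finsum_add_distrib f14 fg, finsum_add_distrib f12 f34, finsum_add_distrib (fin_shift fφ 1) (fin_shift fφ 2),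
    finsum_add_distrib (fin_shift fφ 3) (fin_shift fφ 4), finsum_sub_distrib (fin_shift fγ 4) fγ,
    sum_shift φ 1, sum_shift φ 2, sum_shift φ 3, sum_shift φ 4, sum_shift γ 4] at hsum
  have hφsum : ∑ᶠ n : ℤ, φ n = K m c p * ∑ᶠ n : ℤ, a n - ∑ᶠ n : ℤ, w n := by
    rw [hφ, finsum_sub_distrib fKa fw, mul_finsum a]
  rw [hφsum] at hsum
  linarith

end Pool.Agent.Matsaev
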