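import Pool.Agent.Matsaev.Defs
set_option autoImplicit false
open Filter Topology Real
namespace Pool.Agent.Matsaev

theorem h441_rho : HasDerivAt (fun p : ℝ => (2 : ℝ) ^ (1 / 2 - 1 / p)) (Real.log 2 / 4) 2 := by
  have h1 : HasDerivAt (fun p : ℝ => 1 / 2 - 1 / p) (1 / 4) 2 := by
    have h2 : HasDerivAt (fun p : ℝ => p⁻¹) (-(2 ^ 2)⁻¹) 2 := hasDerivAt_inv (by norm_num)
    have h3 := h2.const_sub (1 / 2)
    refine (h3.congr_deriv (by norm_num)).congr_of_eventuallyEq ?_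
    filter_upwards with p
    rw [one_div p]
  have h4 := h1.const_rpow (show (0 : ℝ) < 2 by norm_num)
  refine h4.congr_deriv ?_
  norm_num
  ring

/-- entropy bound -/
theorem h441_ent {q e : ℝ} (hq : q = 1 / 2 + e) (hq0 : 0 < q) :
    q * Real.log q ≤ q * (-Real.log 2 + 2 * e) := by
  apply mul_le_mul_of_nonneg_left _ hq0.le
  have h1 : q = (1 / 2) * (1 + 2 * e) := by rw [hq]; ring
  have h2 : 0 < 1 + 2 * e := by linarith
  rw [h1, Real.log_mul (by norm_num) h2.ne', one_div, Real.log_inv]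
  have := Real.log_le_sub_one_of_pos h2
  linarith

theorem h441_neg (m c : ℝ) (hm : 2 < m) (hc : c < Real.log 2 / m - 4 / m ^ 2) :
    ((m * (m + 1)) ^ 2 * (Real.log (m * (m + 1)) + 2 * (((m ^ 2 - 1) * (Real.log 2 / 4)) / (m * (m + 1)))) +
      (m * (m - 1)) ^ 2 * (Real.log (m * (m - 1)) + 2 * (((m - 1) ^ 2 * (Real.log 2 / 4)) / (m * (m - 1))))) /
      (2 * m ^ 2 * (m ^ 2 + 1)) - 1 / 2 * Real.log (2 * m ^ 2 * (m ^ 2 + 1)) + c / 2 < 0 := by
  have hm0 : 0 < m := by linarith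
  have hm1 : 0 < m - 1 := by linarith
  have hm2 : 0 < m + 1 := by linarith
  have hmm : 0 < m ^ 2 + 1 := by positivity
  set L := Real.log 2 with hL
  set e := m / (m ^ 2 + 1) with he
  have hepos : 0 < e := by positivity
  have heq : e * (m ^ 2 + 1) = m := by rw [he]; field_simp
  set q1 := (m + 1) ^ 2 / (2 * (m ^ 2 + 1)) with hq1
  set q2 := (m - 1) ^ 2 / (2 * (m ^ 2 + 1)) with hq2
  have hq1p : 0 < q1 := by positivity
  have hq2p : 0 < q2 := by positivity
  have e1 : q1 = 1 / 2 + e := by rw [hq1, he]; field_simp; ring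
  have e2 : q2 = 1 / 2 + -e := by rw [hq2, he]; field_simp; ring
  have b1 := h441_ent e1 hq1p
  have b2 := h441_ent e2 hq2p
  -- logs
  set Q := 2 * m ^ 2 * (m ^ 2 + 1) with hQ
  have hQp : 0 < Q := by positivity
  have l1 : Real.log q1 = 2 * Real.log (m * (m + 1)) - Real.log Q := by
    have : q1 = (m * (m + 1)) ^ 2 / Q := by rw [hq1, hQ]; field_simp
    rw [this, Real.log_div (by positivity) (by positivity), Real.log_pow]
    push_cast
    ring
  have l2 : Real.log q2 = 2 * Real.log (m * (m - 1)) - Real.log Q := by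
    have : q2 = (m * (m - 1)) ^ 2 / Q := by rw [hq2, hQ]; field_simp
    rw [this, Real.log_div (by positivity) (by positivity), Real.log_pow]
    push_cast
    ring
  have e3 : (m * (m + 1)) ^ 2 / Q = q1 := by rw [hq1, hQ]; field_simp
  have e4 : (m * (m - 1)) ^ 2 / Q = q2 := by rw [hq2, hQ]; field_simp
  have e5 : q1 + q2 = 1 := by rw [e1, e2]; ring
  have e6 : ((m * (m + 1)) ^ 2 * (Real.log (m * (m + 1)) + 2 * (((m ^ 2 - 1) * (L / 4)) / (m * (m + 1)))) +
      (m * (m - 1)) ^ 2 * (Real.log (m * (m - 1)) + 2 * (((m - 1) ^ 2 * (L / 4)) / (m * (m - 1))))) / Q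
      = q1 * Real.log (m * (m + 1)) + q2 * Real.log (m * (m - 1)) + L / 2 * (1 - 1 / m) := by
    have e7 : ((m * (m + 1)) ^ 2 * (Real.log (m * (m + 1)) + 2 * (((m ^ 2 - 1) * (L / 4)) / (m * (m + 1)))) +
      (m * (m - 1)) ^ 2 * (Real.log (m * (m - 1)) + 2 * (((m - 1) ^ 2 * (L / 4)) / (m * (m - 1))))) / Q
      = ((m * (m + 1)) ^ 2 / Q) * Real.log (m * (m + 1)) + ((m * (m - 1)) ^ 2 / Q) * Real.log (m * (m - 1)) +
        (m * (m + 1) * (m ^ 2 - 1) + m * (m - 1) * (m - 1) ^ 2) * (L / 2) / Q := by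
      field_simp
      ring
    rw [e7, e3, e4]
    congr 1
    rw [hQ]
    field_simp
    ring
  rw [e6]
  have e8 : q1 * Real.log (m * (m + 1)) + q2 * Real.log (m * (m - 1)) - 1 / 2 * Real.log Q =
      1 / 2 * (q1 * Real.log q1 + q2 * Real.log q2) := by
    rw [l1, l2]
    have : Real.log Q = (q1 + q2) * Real.log Q := by rw [e5, one_mul]
    linear_combination (1 / 2 : ℝ) * (-this)
  have e9 : q1 * (-L + 2 * e) + q2 * (-L + 2 * (-e)) = -L + 4 * e ^ 2 := by
    rw [e1, e2]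
    ring
  have h4e : 4 * e ^ 2 ≤ 4 / m ^ 2 := by
    rw [le_div_iff₀ (by positivity)]
    have h5 : e * m ≤ 1 := by nlinarith
    have h6 : 0 ≤ e * m := by positivity
    nlinarith
  have h7 : L / 2 * (1 - 1 / m) = L / 2 - (L / m) / 2 := by
    field_simp
  rw [h7]
  linarith


theorem T_side (m c : ℝ) (hm : 2 < m) (hc : c < Real.log 2 / m - 4 / m ^ 2) :
    ∀ᶠ p in 𝓝[<] (2:ℝ), K m c p <
      |(m + 1) + (m ^ 2 - 1) * (2:ℝ) ^ (1 / 2 - 1 / p)| ^ p +
      |(m ^ 2 - 1) * (2:ℝ) ^ (1 / 2 - 1 / p) - (m - 1) * ((2:ℝ) ^ (1 / 2 - 1 / p)) ^ 2| ^ p := by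
  have hm0 : 0 < m := by linarith
  have hm1 : 0 < m - 1 := by linarith
  set r : ℝ → ℝ := fun p => (2 : ℝ) ^ (1 / 2 - 1 / p) with hr
  have hr' : HasDerivAt r (Real.log 2 / 4) 2 := h441_rho
  have hr2 : r 2 = 1 := by simp [hr]
  set f1 : ℝ → ℝ := fun p => (m + 1) + (m ^ 2 - 1) * r p with hf1
  set f2 : ℝ → ℝ := fun p => (m ^ 2 - 1) * r p - (m - 1) * (r p) ^ 2 with hf2
  have hf12 : f1 2 = m * (m + 1) := by simp only [hf1, hr2]; ring
  have hf22 : f2 2 = m * (m - 1) := by simp only [hf2, hr2]; ring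
  have hf1p : 0 < f1 2 := by rw [hf12]; positivity
  have hf2p : 0 < f2 2 := by rw [hf22]; positivity
  have hf1' : HasDerivAt f1 ((m ^ 2 - 1) * (Real.log 2 / 4)) 2 := (hr'.const_mul _).const_add _
  have hf2' : HasDerivAt f2 ((m - 1) ^ 2 * (Real.log 2 / 4)) 2 := by
    refine ((hr'.const_mul (m ^ 2 - 1)).sub ((hr'.pow 2).const_mul (m - 1))).congr_deriv ?_
    rw [hr2]
    push_cast
    ring
  have hA : HasDerivAt (fun p => Real.exp (p * Real.log (f1 p)))
      ((m * (m + 1)) ^ 2 * (Real.log (m * (m + 1)) + 2 * (((m ^ 2 - 1) * (Real.log 2 / 4)) / (m * (m + 1))))) 2 := by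
    refine (((hasDerivAt_id (2 : ℝ)).mul (hf1'.log hf1p.ne')).exp).congr_deriv ?_
    have : Real.exp (2 * Real.log (f1 2)) = (m * (m + 1)) ^ 2 := by
      rw [hf12, show (2 : ℝ) * Real.log (m * (m + 1)) = Real.log ((m * (m + 1)) ^ 2) by
        rw [Real.log_pow]; push_cast; ring, Real.exp_log (by positivity)]
    simp only [Pi.mul_apply, id_eq]
    rw [this, hf12]
    ring
  have hB : HasDerivAt (fun p => Real.exp (p * Real.log (f2 p)))
      ((m * (m - 1)) ^ 2 * (Real.log (m * (m - 1)) + 2 * (((m - 1) ^ 2 * (Real.log 2 / 4)) / (m * (m - 1))))) 2 := by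
    refine (((hasDerivAt_id (2 : ℝ)).mul (hf2'.log hf2p.ne')).exp).congr_deriv ?_
    have : Real.exp (2 * Real.log (f2 2)) = (m * (m - 1)) ^ 2 := by
      rw [hf22, show (2 : ℝ) * Real.log (m * (m - 1)) = Real.log ((m * (m - 1)) ^ 2) by
        rw [Real.log_pow]; push_cast; ring, Real.exp_log (by positivity)]
    simp only [Pi.mul_apply, id_eq]
    rw [this, hf22]
    ring
  set Q := 2 * m ^ 2 * (m ^ 2 + 1) with hQ
  have hQp : 0 < Q := by positivity
  have hsum2 : Real.exp (2 * Real.log (f1 2)) + Real.exp (2 * Real.log (f2 2)) = Q := by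
    have h1 : Real.exp (2 * Real.log (f1 2)) = (m * (m + 1)) ^ 2 := by
      rw [hf12, show (2 : ℝ) * Real.log (m * (m + 1)) = Real.log ((m * (m + 1)) ^ 2) by
        rw [Real.log_pow]; push_cast; ring, Real.exp_log (by positivity)]
    have h2 : Real.exp (2 * Real.log (f2 2)) = (m * (m - 1)) ^ 2 := by
      rw [hf22, show (2 : ℝ) * Real.log (m * (m - 1)) = Real.log ((m * (m - 1)) ^ 2) by
        rw [Real.log_pow]; push_cast; ring, Real.exp_log (by positivity)]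
    rw [h1, h2, hQ]
    ring
  set D : ℝ → ℝ := fun p => Real.log (Real.exp (p * Real.log (f1 p)) + Real.exp (p * Real.log (f2 p)))
    - p * (1 / 2 * Real.log Q) - (c - p * (c / 2)) with hD
  have hD2 : D 2 = 0 := by
    simp only [hD]
    rw [hsum2]
    ring
  have hD' : HasDerivAt D (((m * (m + 1)) ^ 2 * (Real.log (m * (m + 1)) + 2 * (((m ^ 2 - 1) * (Real.log 2 / 4)) / (m * (m + 1)))) +
      (m * (m - 1)) ^ 2 * (Real.log (m * (m - 1)) + 2 * (((m - 1) ^ 2 * (Real.log 2 / 4)) / (m * (m - 1))))) /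
      Q - 1 / 2 * Real.log Q + c / 2) 2 := by
    have h1 := (hA.add hB).log (by
      simp only [Pi.add_apply]
      rw [hsum2]
      exact hQp.ne')
    have h2 := (h1.sub ((hasDerivAt_id (2 : ℝ)).mul_const (1 / 2 * Real.log Q))).sub
      (((hasDerivAt_id (2 : ℝ)).mul_const (c / 2)).const_sub c)
    refine h2.congr_deriv ?_
    simp only [Pi.add_apply]
    rw [hsum2]
    ring
  have hneg := h441_neg m c hm hc
  rw [← hQ] at hneg
  have hslope := (hasDerivAt_iff_tendsto_slope.mp hD').mono_left (nhdsLT_le_nhdsNE (2 : ℝ))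
  have hev1 := hslope.eventually_lt_const hneg
  have hev2 : ∀ᶠ p in 𝓝[<] (2:ℝ), 0 < f1 p :=
    (hf1'.continuousAt.eventually (lt_mem_nhds hf1p)).filter_mono nhdsWithin_le_nhds
  have hev3 : ∀ᶠ p in 𝓝[<] (2:ℝ), 0 < f2 p :=
    (hf2'.continuousAt.eventually (lt_mem_nhds hf2p)).filter_mono nhdsWithin_le_nhds
  filter_upwards [hev1, hev2, hev3, self_mem_nhdsWithin] with p h1 h2 h3 h4
  have hp : p - 2 < 0 := by
    have : p < 2 := h4
    linarith
  rw [slope_def_field, hD2, sub_zero, div_lt_iff_of_neg hp, zero_mul] at h1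
  have hg : |(m + 1) + (m ^ 2 - 1) * (2:ℝ) ^ (1 / 2 - 1 / p)| ^ p +
      |(m ^ 2 - 1) * (2:ℝ) ^ (1 / 2 - 1 / p) - (m - 1) * ((2:ℝ) ^ (1 / 2 - 1 / p)) ^ 2| ^ p =
      Real.exp (p * Real.log (f1 p)) + Real.exp (p * Real.log (f2 p)) := by
    have g1 : |(m + 1) + (m ^ 2 - 1) * (2:ℝ) ^ (1 / 2 - 1 / p)| = f1 p := abs_of_pos h2
    have g2 : |(m ^ 2 - 1) * (2:ℝ) ^ (1 / 2 - 1 / p) - (m - 1) * ((2:ℝ) ^ (1 / 2 - 1 / p)) ^ 2| = f2 p :=
      abs_of_pos h3
    rw [g1, g2, Real.rpow_def_of_pos h2, Real.rpow_def_of_pos h3, mul_comm p, mul_comm p]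
  rw [hg]
  have hK : K m c p = Real.exp (p * (1 / 2 * Real.log Q) + (c - p * (c / 2))) := by
    unfold K
    rw [← hQ, Real.rpow_def_of_pos hQp, ← Real.exp_add]
    congr 1
    ring
  have hpos : 0 < Real.exp (p * Real.log (f1 p)) + Real.exp (p * Real.log (f2 p)) := by positivity
  rw [hK, ← Real.lt_log_iff_exp_lt hpos]
  simp only [hD] at h1
  linarith

end Pool.Agent.Matsaev
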