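import Pool.Agent.Matsaev.Defs
import Pool.Agent.Matsaev.Perturb
import Pool.Agent.Matsaev.Entropy
import Pool.Agent.Matsaev.Null
set_option autoImplicit false
open Filter Topology Real
namespace Pool.Agent.Matsaev

noncomputable def pr (i : Fin 6) : (Fin 6 → ℝ) →ₗ[ℝ] ℝ := LinearMap.proj i

noncomputable def Wl (m : ℝ) (i j k : Fin 6) : (Fin 6 → ℝ) →ₗ[ℝ] ℝ :=
  (m + 1) • pr i + (√2 * (m ^ 2 - 1)) • pr j - (m - 1) • pr k

lemma Wl_apply (m : ℝ) (i j k : Fin 6) (g : Fin 6 → ℝ) : Wl m i j k g = W m (g i) (g j) (g k) := by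
  simp [Wl, W, pr]

noncomputable def lf (m : ℝ) : Fin 12 → (Fin 6 → ℝ) →ₗ[ℝ] ℝ :=
  ![pr 1, pr 2, pr 3, pr 4, Wl m 2 1 0, Wl m 3 2 1, Wl m 4 3 2, Wl m 5 4 3,
    pr 5 + ((m - 1) / √2) • pr 4, pr 4, pr 1 + ((m - 1) / √2) • pr 0, pr 0]

noncomputable def sf (m c : ℝ) : Fin 12 → ℝ → ℝ :=
  ![K m c, K m c, K m c, K m c, fun _ => -1, fun _ => -1, fun _ => -1, fun _ => -1,
    fun _ => 2 * m * (m + 1), fun _ => -(m * (m - 1) * (m ^ 2 + 1)),
    fun _ => -(2 * m * (m + 1)), fun _ => (m * (m - 1) * (m ^ 2 + 1))]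

noncomputable def K' (m c p : ℝ) : ℝ :=
  K m c p * (Real.log (2 * m ^ 2 * (m ^ 2 + 1)) / 2 - c / 2)

noncomputable def sf' (m c : ℝ) : Fin 12 → ℝ → ℝ :=
  ![K' m c, K' m c, K' m c, K' m c, fun _ => 0, fun _ => 0, fun _ => 0, fun _ => 0,
    fun _ => 0, fun _ => 0, fun _ => 0, fun _ => 0]

lemma sum12 (m c p : ℝ) (g : Fin 6 → ℝ) :
    ∑ i, sf m c i p * |lf m i g| ^ p = F m c p g := by
  simp only [Fin.sum_univ_succ, Fin.sum_univ_zero, sf, lf, F, Gp]
  simp [Wl_apply, pr]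
  ring

lemma K_deriv (m c p : ℝ) (hm : 1 < m) : HasDerivAt (K m c) (K' m c p) p := by
  have hQ : (0:ℝ) < 2 * m ^ 2 * (m ^ 2 + 1) := by positivity
  have h1 : HasDerivAt (fun p : ℝ => (2 * m ^ 2 * (m ^ 2 + 1)) ^ (p / 2))
      ((2 * m ^ 2 * (m ^ 2 + 1)) ^ (p / 2) * Real.log (2 * m ^ 2 * (m ^ 2 + 1)) * (1 / 2)) p := by
    have := (hasDerivAt_id p).div_const 2
    have h2 := this.const_rpow hQ
    simpa [mul_comm, mul_assoc, mul_left_comm] using h2
  have h3 : HasDerivAt (fun p : ℝ => Real.exp (c * (2 - p) / 2))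
      (Real.exp (c * (2 - p) / 2) * (-c / 2)) p := by
    have h4 : HasDerivAt (fun p : ℝ => c * (2 - p) / 2) (-c / 2) p := by
      have := (((hasDerivAt_id p).const_sub 2).const_mul c).div_const 2
      simpa using this
    exact h4.exp
  have := h1.mul h3
  refine (this.congr_deriv ?_)
  simp only [K', K]
  ring

lemma K_two (m c : ℝ) (hm : 1 < m) : K m c 2 = 2 * m ^ 2 * (m ^ 2 + 1) := by
  simp [K]

lemma F_two (m c : ℝ) (hm : 1 < m) (g : Fin 6 → ℝ) :
    F m c 2 g = (m ^ 2 - 1) * ((g 2 - √2 * g 1 + g 0) ^ 2 + (g 3 - √2 * g 2 + g 1) ^ 2 +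
      (g 4 - √2 * g 3 + g 2) ^ 2 + (g 5 - √2 * g 4 + g 3) ^ 2) := by
  have h2 : √2 ^ 2 = (2:ℝ) := Real.sq_sqrt (by norm_num)
  have h2' : √2 ≠ 0 := by positivity
  have e : (m - 1) / √2 = (m - 1) * √2 / 2 := by
    field_simp
    rw [h2]
  simp only [F, Gp, W, K_two m c hm, Real.rpow_two, sq_abs, e]
  ring_nf
  have h3 : √2 ^ 2 = (2:ℝ) := h2
  simp only [h3]
  ring

theorem window (m c : ℝ) (hm : 1 < m) (hc : 0.67 / m < c) :
    ∀ᶠ p in 𝓝[<] (2:ℝ), ∀ g : Fin 6 → ℝ, 0 ≤ F m c p g := by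
  have key := perturb (lf m) (sf m c) (sf' m c) ?_ ?_ ?_ ?_
  · filter_upwards [key] with p hp g
    rw [← sum12]
    exact hp g
  · intro i
    filter_upwards with p
    fin_cases i <;> simp only [sf, sf'] <;> first | exact K_deriv m c p hm | exact hasDerivAt_const _ _
  · intro i
    fin_cases i <;> simp only [sf'] <;>
      first
      | exact ((K_deriv m c 2 hm).continuousAt.mul continuousAt_const)
      | exact continuousAt_const
  · intro g
    rw [sum12, F_two m c hm]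
    have : 0 < m ^ 2 - 1 := by nlinarith
    positivity
  · intro g hg h0
    rw [sum12, F_two m c hm] at h0
    have hpos : 0 < m ^ 2 - 1 := by nlinarith
    have h5 := (mul_eq_zero.mp h0).resolve_left hpos.ne'
    have e1 : g 2 - √2 * g 1 + g 0 = 0 := by
      by_contra h
      have : 0 < (g 2 - √2 * g 1 + g 0) ^ 2 := by positivity
      nlinarith [sq_nonneg (g 3 - √2 * g 2 + g 1), sq_nonneg (g 4 - √2 * g 3 + g 2), sq_nonneg (g 5 - √2 * g 4 + g 3)]
    have e2 : g 3 - √2 * g 2 + g 1 = 0 := by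
      by_contra h
      have : 0 < (g 3 - √2 * g 2 + g 1) ^ 2 := by positivity
      nlinarith [sq_nonneg (g 2 - √2 * g 1 + g 0), sq_nonneg (g 4 - √2 * g 3 + g 2), sq_nonneg (g 5 - √2 * g 4 + g 3)]
    have e3 : g 4 - √2 * g 3 + g 2 = 0 := by
      by_contra h
      have : 0 < (g 4 - √2 * g 3 + g 2) ^ 2 := by positivity
      nlinarith [sq_nonneg (g 2 - √2 * g 1 + g 0), sq_nonneg (g 3 - √2 * g 2 + g 1), sq_nonneg (g 5 - √2 * g 4 + g 3)]
    have e4 : g 5 - √2 * g 4 + g 3 = 0 := by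
      by_contra h
      have : 0 < (g 5 - √2 * g 4 + g 3) ^ 2 := by positivity
      nlinarith [sq_nonneg (g 2 - √2 * g 1 + g 0), sq_nonneg (g 3 - √2 * g 2 + g 1), sq_nonneg (g 4 - √2 * g 3 + g 2)]
    have h2 : √2 * √2 = (2:ℝ) := Real.mul_self_sqrt (by norm_num)
    have a4 : g 4 = - g 0 := by
      have : g 4 = √2 * (√2 * (√2 * g 1 - g 0) - g 1) - (√2 * g 1 - g 0) := by linear_combination e3 + √2 * e2 + (√2 * √2 - 1) * e1
      rw [this]; linear_combination (√2 * g 1 - g 0) * h2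
    have a5 : g 5 = - g 1 := by
      have : g 5 = √2 * (-g 0) - (√2 * (√2 * g 1 - g 0) - g 1) := by
        rw [a4] at e4
        linear_combination e4 - e2 - √2 * e1
      rw [this]; linear_combination (-g 1) * h2
    have key := null_ineq E_lipschitz m c hm hc g hg e1 e2 e3 e4
    simp only [Fin.sum_univ_succ, Fin.sum_univ_zero, sf, sf', lf]
    simp only [Matrix.cons_val_zero, Matrix.cons_val_succ, Real.rpow_two, sq_abs, K', K_two m c hm, Wl_apply,
      LinearMap.add_apply, LinearMap.smul_apply, pr, LinearMap.proj_apply, smul_eq_mul]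
    rw [a4, a5] at *
    have b1 : |-g 1 + (m - 1) / √2 * -g 0| = |g 1 + (m - 1) / √2 * g 0| := by
      rw [← abs_neg]; congr 1; ring
    have b2 : (-g 1 + (m - 1) / √2 * -g 0) ^ 2 = (g 1 + (m - 1) / √2 * g 0) ^ 2 := by ring
    rw [b1, b2, abs_neg]
    dsimp only at key
    rw [abs_neg (g 0)] at key
    convert key using 1
    ring

end Pool.Agent.Matsaev
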